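import Pool.Agent.H37.CND.Stmts

/-!
# Denominators of conductors: the groups `SL_2(F)`: statements of the rows of the board `cne`

Row `XXX` is a theorem `xxx_thm (h1 : S_AAA) ... : S_XXX` (hypotheses: the rows it needs, of `cne` or
`cnd`) in `Pool/Agent/H<k>/CNE/XXX.lean`, importing this file, namespace `Pool.CND`.

The cover: `F` a field with `q = p ^ f` elements, `x ^ (q ^ 2) + x = s ^ m x ^ q`, `x y ^ q - x ^ q y = 1` over
`k(s)` (for `m = 1` the Drinfeld curve); `SL_2(F)` acts linearly on `(x, y)`.  At the place `P`: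
`ord s = -q (q - 1)`, `ord x = m q`, `ord y = -m`; the inertia group is the Borel group `g 1 0 = 0`, the
wild part has one break `m (q + 1)`, so the conductor is `m (q + 1) / (q - 1)`.
-/

set_option autoImplicit false

namespace Pool.CND

open Finset Matrix

/-- `SL_2(F)` -/
abbrev SL (F : Type) [Field F] : Type := Matrix.SpecialLinearGroup (Fin 2) F

/-- an element of `F` in `L` -/
abbrev cst (k F L : Type) [Field k] [Field F] [Field L] [Algebra F k] [Algebra k L] (a : F) : L :=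
  algebraMap k L (algebraMap F k a)

/-- the data of the cover -/
structure Sl (k F L : Type) [Field k] [Field F] [Field L] [Algebra F k] [Algebra k L] (q m : ℕ)
    (s x y : L) (ρ : SL F →* (L ≃ₐ[k] L)) (P : Place k L) : Prop where
  eq_x : x ^ (q ^ 2) + x = s ^ m * x ^ q
  eq_y : y ^ (q ^ 2) + y = s ^ m * y ^ q
  eq_xy : x * y ^ q - x ^ q * y = 1
  act_s : ∀ g : SL F, ρ g s = s
  act_x : ∀ g : SL F, ρ g x = cst k F L (g.1 0 0) * x + cst k F L (g.1 1 0) * y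
  act_y : ∀ g : SL F, ρ g y = cst k F L (g.1 0 1) * x + cst k F L (g.1 1 1) * y
  s_ne : s ≠ 0
  x_ne : x ≠ 0
  y_ne : y ≠ 0
  ord_s : P.ord s = -((q * (q - 1) : ℕ) : ℤ)
  ord_x : P.ord x = ((m * q : ℕ) : ℤ)
  ord_y : P.ord y = -(m : ℤ)
  tr : Transcendental k s
  fixed : ∀ z : L, (∀ g : SL F, ρ g z = z) → z ∈ IntermediateField.adjoin k {s}
  span : ∀ z : L, ∃ c : Fin m → Fin q → L, (∀ i j, c i j ∈ IntermediateField.adjoin k {x}) ∧
    z = ∑ i, ∑ j, c i j * s ^ (i : ℕ) * y ^ (j : ℕ)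

/-- SRL: Laurent series.  `Z = τ ^ (-m (q + 1))`, `X = τ ^ (m q) (1 - τ ^ (m (q + 1) (q - 1))) ^ (-1 / (q + 1))`,
`Y = X Z`, so `Z ^ q - Z = X ^ (-(q + 1))`, `X Y ^ q - X ^ q Y = 1`;
`S ^ m = X ^ (1 - q) (1 + X ^ (q ^ 2 - 1)) = τ ^ (-m q (q - 1)) (1 + ...)`.  (`n`-th roots: row `SRS` of `cnd`,
file `Pool/Agent/H23/CND/SRS.lean`.)  The equation of `Y` follows from those of `X` and `X Y ^ q - X ^ q Y = 1`
(take the `q`-th power of the latter, divide by `X ^ q`). -/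
def S_SRL : Prop := ∀ (p : ℕ) (k : Type) [Field k] (f m q : ℕ), p.Prime → CharP k p → 1 ≤ f →
  q = p ^ f → 1 ≤ m → Nat.Coprime m (p * (q - 1)) → ∃ S X Y : LaurentSeries k, S ≠ 0 ∧ X ≠ 0 ∧
  Y ≠ 0 ∧ S.order = -((q * (q - 1) : ℕ) : ℤ) ∧ X.order = ((m * q : ℕ) : ℤ) ∧ Y.order = -(m : ℤ) ∧
  X ^ (q ^ 2) + X = S ^ m * X ^ q ∧ Y ^ (q ^ 2) + Y = S ^ m * Y ^ q ∧ X * Y ^ q - X ^ q * Y = 1

/-- SBP: restriction of a place to an intermediate field -/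
def S_SBP : Prop := ∀ (k Ω : Type) [Field k] [Field Ω] [Algebra k Ω] (Λ : Place k Ω)
  (L : IntermediateField k Ω) (z : L), z ≠ 0 → Λ.ord (z : Ω) = 1 →
  ∃ P : Place k L, ∀ x : L, P.ord x = Λ.ord (x : Ω)

/-- SLS: `L = k(S, X, Y)` is spanned over `k(X)` by the `S ^ i Y ^ j`, `i < m`, `j < q` (these spans are
rings: `S ^ m ∈ k(X)`, `Y ^ q = (1 + X ^ q Y) / X`; finite over the field `k(X)`, so fields) -/
def S_SLS : Prop := ∀ (k Ω : Type) [Field k] [Field Ω] [Algebra k Ω] (q m : ℕ) (S X Y : Ω),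
  2 ≤ q → 1 ≤ m → X ≠ 0 → X ^ (q ^ 2) + X = S ^ m * X ^ q → X * Y ^ q - X ^ q * Y = 1 →
  ∀ z ∈ IntermediateField.adjoin k {S, X, Y}, ∃ c : Fin m → Fin q → Ω,
    (∀ i j, c i j ∈ IntermediateField.adjoin k {X}) ∧
      z = ∑ i, ∑ j, c i j * S ^ (i : ℕ) * Y ^ (j : ℕ)

/-- SLX: orders on `k(x)`, `ord x = e > 0`: multiples of `e`, and unchanged under `x ↦ a x` -/
def S_SLX : Prop := ∀ (k L : Type) [Field k] [Field L] [Algebra k L] (P : Place k L) (x : L)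
  (e : ℕ), 1 ≤ e → x ≠ 0 → P.ord x = (e : ℤ) →
  ∀ c ∈ IntermediateField.adjoin k {x}, c ≠ 0 → (e : ℤ) ∣ P.ord c ∧
    ∀ (σ : L ≃ₐ[k] L) (a : k), a ≠ 0 → σ x = algebraMap k L a * x → P.ord (σ c) = P.ord c

/-- SLV: `[k(S, X, Y) : k(X)] = m q` (`SLS` and independence by `VEC` with `n = m q`, `SLX`) -/
def S_SLV : Prop := ∀ (k Ω : Type) [Field k] [Field Ω] [Algebra k Ω] (Λ : Place k Ω) (q m : ℕ)
  (S X Y : Ω), 2 ≤ q → 1 ≤ m → Nat.Coprime m q → Nat.Coprime m (q - 1) → S ≠ 0 → X ≠ 0 → Y ≠ 0 →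
  Λ.ord S = -((q * (q - 1) : ℕ) : ℤ) → Λ.ord X = ((m * q : ℕ) : ℤ) → Λ.ord Y = -(m : ℤ) →
  X ^ (q ^ 2) + X = S ^ m * X ^ q → X * Y ^ q - X ^ q * Y = 1 →
  IntermediateField.relfinrank (IntermediateField.adjoin k {X})
    (IntermediateField.adjoin k {S, X, Y}) = m * q

/-- SLT: `[k(X) : k(t)] = q ^ 2 - 1` for `t X ^ q = X ^ (q ^ 2) + X` (degree of a rational function) -/
def S_SLT : Prop := ∀ (k Ω : Type) [Field k] [Field Ω] [Algebra k Ω] (q : ℕ) (X t : Ω), 2 ≤ q →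
  Transcendental k X → X ^ (q ^ 2) + X = t * X ^ q →
  IntermediateField.adjoin k {t} ≤ IntermediateField.adjoin k {X} ∧
  IntermediateField.relfinrank (IntermediateField.adjoin k {t})
    (IntermediateField.adjoin k {X}) = q ^ 2 - 1

/-- SLM: `[k(S) : k(S ^ m)] = m` -/
def S_SLM : Prop := ∀ (k Ω : Type) [Field k] [Field Ω] [Algebra k Ω] (m : ℕ) (S : Ω), 1 ≤ m →
  Transcendental k S →
  IntermediateField.adjoin k {S ^ m} ≤ IntermediateField.adjoin k {S} ∧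
  IntermediateField.relfinrank (IntermediateField.adjoin k {S ^ m})
    (IntermediateField.adjoin k {S}) = m

/-- SLD: `[k(S, X, Y) : k(S)] = q (q ^ 2 - 1)` (`SLV`, `SLT`, `SLM`; elements of nonzero order are
transcendental) -/
def S_SLD : Prop := ∀ (k Ω : Type) [Field k] [Field Ω] [Algebra k Ω] (Λ : Place k Ω) (q m : ℕ)
  (S X Y : Ω), 2 ≤ q → 1 ≤ m → Nat.Coprime m q → Nat.Coprime m (q - 1) → S ≠ 0 → X ≠ 0 → Y ≠ 0 →
  Λ.ord S = -((q * (q - 1) : ℕ) : ℤ) → Λ.ord X = ((m * q : ℕ) : ℤ) → Λ.ord Y = -(m : ℤ) →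
  X ^ (q ^ 2) + X = S ^ m * X ^ q → X * Y ^ q - X ^ q * Y = 1 →
  IntermediateField.relfinrank (IntermediateField.adjoin k {S})
    (IntermediateField.adjoin k {S, X, Y}) = q * (q ^ 2 - 1)

/-- SLG: the group.  `K = k(s)`.  `L` is the splitting field over `K` of `T ^ (q ^ 2) - s ^ m T ^ q + T`, with
the `q ^ 2` distinct roots `a x + b y`, `a b : F` (`x`, `y` independent over `F` since `x y ^ q - x ^ q y = 1`).
A `K`-automorphism maps `x`, `y` to roots, so is given by a matrix, of determinant `1`; there are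
`q (q ^ 2 - 1) = |SL_2(F)|` of them. -/
def S_SLG : Prop := ∀ (p : ℕ) (k F L : Type) [Field k] [Field F] [Field L] [Algebra F k]
  [Algebra k L] (f q m : ℕ) (s x y : L), p.Prime → CharP k p → 1 ≤ f → q = p ^ f →
  Nat.card F = q → x ^ (q ^ 2) + x = s ^ m * x ^ q → y ^ (q ^ 2) + y = s ^ m * y ^ q →
  x * y ^ q - x ^ q * y = 1 → IntermediateField.adjoin k {s, x, y} = ⊤ →
  Module.finrank (IntermediateField.adjoin k {s}) L = q * (q ^ 2 - 1) →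
  ∃ ρ : SL F →* (L ≃ₐ[k] L), (∀ g : SL F, ρ g s = s) ∧
    (∀ g : SL F, ρ g x = cst k F L (g.1 0 0) * x + cst k F L (g.1 1 0) * y) ∧
    (∀ g : SL F, ρ g y = cst k F L (g.1 0 1) * x + cst k F L (g.1 1 1) * y) ∧
    ∀ z : L, (∀ g : SL F, ρ g z = z) → z ∈ IntermediateField.adjoin k {s}

/-- SLE: existence of the data, `L = k(S, X, Y)` in `LaurentSeries k`: `SRL`, `LSP` (of `cnd`), `SBP` (order `1`
occurs: the orders of `S`, `X`, `Y` have gcd `1`), `SLS`, `SLD`, `SLG` -/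
def S_SLE : Prop := ∀ (p : ℕ) (k F : Type) [Field k] [Field F] [Algebra F k] (f q m : ℕ),
  p.Prime → CharP k p → 1 ≤ f → q = p ^ f → Nat.card F = q → 1 ≤ m → Nat.Coprime m (p * (q - 1)) →
  ∃ (L : Type) (_ : Field L) (_ : Algebra k L) (s x y : L) (ρ : SL F →* (L ≃ₐ[k] L))
    (P : Place k L), Sl k F L q m s x y ρ P

/-- SLF: the elements fixing `P` (`←`: `span`, `VEC`, `SLX`, `n = m q`, as in row `CVF`; `→`: `ρ g x` has order `-m`
if `g 1 0 ≠ 0`) -/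
def S_SLF : Prop := ∀ (p : ℕ) (k F L : Type) [Field k] [Field F] [Field L] [Algebra F k]
  [Algebra k L] (f q m : ℕ) (s x y : L) (ρ : SL F →* (L ≃ₐ[k] L)) (P : Place k L),
  p.Prime → CharP k p → 1 ≤ f → q = p ^ f → Nat.card F = q → 1 ≤ m → Nat.Coprime m (p * (q - 1)) →
  Sl k F L q m s x y ρ P → ∀ g : SL F, Fixes P (ρ g) ↔ g.1 1 0 = 0

/-- SLI: it is a cover (at a place with `s` finite `x`, `y` are finite with residues independent over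
`F`, by `x y ^ q - x ^ q y = 1`) -/
def S_SLI : Prop := ∀ (p : ℕ) (k F L : Type) [Field k] [Field F] [Field L] [Algebra F k]
  [Algebra k L] (f q m : ℕ) (s x y : L) (ρ : SL F →* (L ≃ₐ[k] L)) (P : Place k L),
  p.Prime → CharP k p → 1 ≤ f → q = p ^ f → Nat.card F = q → 1 ≤ m → Nat.Coprime m (p * (q - 1)) →
  Sl k F L q m s x y ρ P → IsCover ρ s

/-- SLB: `ram i`, `i ≥ 1` (`SLF`, `RAM`, `LON`, `TMO`, `LO2` with `x := y`: `g y - y = b x`, so `m q = -m + b(g)`; if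
`g 0 0 ≠ 1` then `g x - x` has the order of `x`, so `g ∉ ram 1`) -/
def S_SLB : Prop := ∀ (p : ℕ) (k F L : Type) [Field k] [Field F] [Field L] [Algebra F k]
  [Algebra k L] (f q m : ℕ) (s x y : L) (ρ : SL F →* (L ≃ₐ[k] L)) (P : Place k L),
  p.Prime → CharP k p → 1 ≤ f → q = p ^ f → Nat.card F = q → 1 ≤ m → Nat.Coprime m (p * (q - 1)) →
  Sl k F L q m s x y ρ P → ∀ (i : ℕ) (g : SL F), 1 ≤ i →
    (g ∈ ram P ρ i ↔ g = 1 ∨ (g.1 0 0 = 1 ∧ g.1 1 0 = 0 ∧ i ≤ m * (q + 1)))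

/-- SLN: the conductor (`SLF`, `SLB`): `|ram 0| = q (q - 1)`, `|ram i| = q` for `1 ≤ i ≤ m (q + 1)` -/
def S_SLN : Prop := ∀ (p : ℕ) (k F L : Type) [Field k] [Field F] [Field L] [Algebra F k]
  [Algebra k L] (f q m : ℕ) (s x y : L) (ρ : SL F →* (L ≃ₐ[k] L)) (P : Place k L),
  p.Prime → CharP k p → 1 ≤ f → q = p ^ f → Nat.card F = q → 1 ≤ m → Nat.Coprime m (p * (q - 1)) →
  Sl k F L q m s x y ρ P → IsConductor P ρ ((m * (q + 1) : ℚ) / (q - 1 : ℕ))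

/-- SLO: from `SLE`, `SLI`, `SLN` -/
def S_SLO : Prop := ∀ (p : ℕ) (k F : Type) [Field k] [Field F] [Algebra F k] (f q m : ℕ),
  p.Prime → CharP k p → 1 ≤ f → q = p ^ f → Nat.card F = q → 1 ≤ m → Nat.Coprime m (p * (q - 1)) →
  ((m * (q + 1) : ℚ) / (q - 1 : ℕ)) ∈ Cond k (SL F)

/-! ## The upper bound -/

/-- TMI: an involution acts on the uniformiser by `-1` (`EXP`: `ε π = c π + Ge 2`, `c ^ 2 = 1`; if `c = 1` then
`ε π = π + a π ^ (i + 1) + ...`, `a ≠ 0` or `ε = 1` (`INJ`), and `ε (ε π) = π + 2 a π ^ (i + 1) + ... ≠ π`) -/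
def S_TMI : Prop := ∀ (p : ℕ) (k L : Type) [Field k] [Field L] [Algebra k L] (P : Place k L)
  (ε : L ≃ₐ[k] L), p.Prime → CharP k p → p ≠ 2 → Fixes P ε → ε ^ 2 = 1 → ε ≠ 1 →
  P.Ge (ε P.pi + P.pi) 2

/-- TMC: an automorphism commuting with such an `ε` has even `b` (`g π = π + a π ^ (i + 1) + Ge (i + 2)`;
apply `g` to `ε π` and `ε` to `g π`, `ZPW`, `EXP`, `LON`: `- a = a (-1) ^ (i + 1)`) -/
def S_TMC : Prop := ∀ (p : ℕ) (k L : Type) [Field k] [Field L] [Algebra k L] (P : Place k L)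
  (ε g : L ≃ₐ[k] L), p.Prime → CharP k p → p ≠ 2 → Fixes P ε → Fixes P g → ε * g = g * ε →
  P.Ge (ε P.pi + P.pi) 2 → g ≠ 1 → 1 ≤ P.b g → Even (P.b g)

/-- UPG: conductors and the inertia group: `WLD`, `UMW`, `HBP`, `ELA`, `CON`, `SUB`, `TMI`, `TMC`.
`n c = U(W)`, and `|W| U(W) = l + ∑ b` is even in the last case. -/
def S_UPG : Prop := ∀ (p : ℕ) (k G : Type) [Field k] [Group G] [Finite G], p.Prime → CharP k p →
  ∀ c ∈ Cond k G, c = 0 ∨ ∃ (W I : Subgroup G) (n : ℕ), W ≤ I ∧ W ≠ ⊥ ∧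
    (∃ r : ℕ, Nat.card W = p ^ r) ∧ (∀ g ∈ I, ∀ w ∈ W, g * w * g⁻¹ ∈ W) ∧ ¬ p ∣ n ∧
    Nat.card I = n * Nat.card W ∧ (EA p W → ∃ z : ℤ, (n : ℚ) * c = z) ∧
    (EA p W → p ≠ 2 → (∃ ε ∈ I, ε ^ 2 = 1 ∧ ε ≠ 1 ∧ ∀ w ∈ W, ε * w = w * ε) →
      ∃ z : ℤ, (n : ℚ) * c = 2 * z)

/-- SLW: `p`-subgroups of `SL_2(F)`: `W` fixes a line, `I` stabilises it, so lies in a group of order
`q (q - 1)`; if `n` does not divide `(q - 1) / 2` then `n` is even and `I` contains the involution `-1` -/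
def S_SLW : Prop := ∀ (p : ℕ) (F : Type) [Field F] [Finite F] (f q : ℕ), p.Prime → 1 ≤ f →
  q = p ^ f → Nat.card F = q → ∀ (W I : Subgroup (SL F)) (n : ℕ), W ≤ I → W ≠ ⊥ →
  (∃ r : ℕ, Nat.card W = p ^ r) → (∀ g ∈ I, ∀ w ∈ W, g * w * g⁻¹ ∈ W) → ¬ p ∣ n →
  Nat.card I = n * Nat.card W →
  EA p W ∧ n ∣ q - 1 ∧ (p ≠ 2 → n ∣ (q - 1) / 2 ∨
    ∃ ε ∈ I, ε ^ 2 = 1 ∧ ε ≠ 1 ∧ ∀ w ∈ W, ε * w = w * ε)

/-- SLU: from `UPG`, `SLW` -/
def S_SLU : Prop := ∀ (p : ℕ) (k F : Type) [Field k] [Field F] (f q : ℕ), p.Prime → CharP k p →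
  1 ≤ f → q = p ^ f → Nat.card F = q → ∀ c ∈ Cond k (SL F),
  ∃ z : ℤ, (((q - 1) / Nat.gcd 2 (q - 1) : ℕ) : ℚ) * c = z

/-- SLR: `N = (q - 1) / gcd(2, q - 1)` for `SL_2(F)`: from `SLO`, `SLU`, `NGL` (`F` embeds in `k`; `m` ranges over
the numbers prime to `p (q - 1)`; `(q - 1) / gcd(2, q - 1)` is prime to `(q + 1) / gcd(2, q - 1)`) -/
def S_SLR : Prop := ∀ (p : ℕ) (k F : Type) [Field k] [IsAlgClosed k] [Field F] (f q : ℕ),
  p.Prime → CharP k p → 1 ≤ f → q = p ^ f → Nat.card F = q →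
  NG k (SL F) = (q - 1) / Nat.gcd 2 (q - 1)

end Pool.CND
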